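import Pool.Agent.H567.BK.Three

/-!
# Baker's constant: the equations `± p ± q + c r = d` have the expected number of solutions in primes up to
`3 |d| + |c| ^ (5 / 4 + ε)`, for EVERY large `c`, and for all `d` up to few exceptional integers

A quadruple `(a, b, c, d)` of integers is admissible (`Admissible`) if `a`, `b`, `c` are nonzero and not all of the same
sign, `a + b + c - d` is even, and each of `gcd(a, b, c)`, `gcd(d, a, b)`, `gcd(d, a, c)`, `gcd(d, b, c)` is one. The
constant of Baker is the infimum of the exponents `μ` for which every admissible equation `a p + b q + c r = d` has a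
solution in primes with

  `max(p, q, r) ≤ 3 |d| + m ^ μ`, `m = max(3, |a|, |b|, |c|)`   (`SmallSolution μ a b c d`).

It is known that it is at most `45`, and at most `4` on the generalized Riemann hypothesis.

**Theorem.** (1) Let `ε > 0` and `T` be given, and `H = 3 |d| + |c| ^ (5 / 4 + ε)`. All admissible equations with
`|a| = |b| = 1` and `|c|` sufficiently large have at least

  `H ^ 2 / (10 ^ 5 |c| (log H) ^ 3)`

solutions in primes up to `H` (this is the expected order of magnitude), in each of the following cases: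

* `gcd(c, d) ≤ (log |c|) ^ T`;
* `a = b` (sums `p + q`) and the product of the prime factors of `gcd(c, d)` is at most `(log |c|) ^ T`;
* the product of the prime factors of `c` is at most `(log |c|) ^ T`; for instance `c = 10 ^ k`, with EVERY even `d`,
  also with `d = 0`: every large power of ten is `(p + q) / r` and `(p - q) / r` with primes
  `p, q, r ≤ 10 ^ (k (5 / 4 + ε))`.

No `c` is excluded in the first two cases.

(2) For all large `N` there is a set `D` of at most `(log N) ^ k` integers, the products of the prime factors of which are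
larger than `(log N) ^ B`, such that ALL admissible equations with `|a| = |b| = 1`, `2 ≤ |c| ≤ N ^ (4 / 5 - ρ)` and
`|d| ≤ N / 5` have at least `N ^ 2 / (10 ^ 5 |c| (log N) ^ 3)` solutions in primes `p, q, r ≤ N`, if no member of `D`
divides `c`, or if `a = b` and no member of `D` divides `gcd(c, d)`. (For instance `d = 0`: `p + q = c r`, `p - q = c r`.)

The library has (`OneLargeCoefficientTenSevenths`) the existence of one
solution with the exponent `10 / 7 + ε` in the first case.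

Proof. For every modulus `c ≤ x ^ (4 / 5 - ρ)` and every residue class `e` modulo `c` with these properties all but
`x / (c (log x) ^ 3)` of the even numbers up to `x` in the class are sums of two primes (`H567/PP`, `fru_all`: the
minorant of the library `T6/H3/FF`, characters of conductors with a small radical by a formula of Postnikov's type and
Vinogradov's method), resp. differences `p - q` with `q ≤ x / 8` (`H579/R`, `pairs_fewR`, helper579), with at least one
eighth of the expected number of representations. The numbers `c r + e` with primes `r` in an interval `(y, 3 y]`, where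
`c y` has the order of `x`, are `≫ x / (c log x)` members of the class, so almost none of them is an exception. The
choice of the intervals follows the library module `R460/BK`.
-/

set_option autoImplicit false

namespace Pool.Agent.Results.MP_3923f3_nt.OneLargeCoefficientFiveFourths

/-- Admissible quadruples: `a`, `b`, `c` are nonzero and not all of the same sign, `a + b + c - d` is
even, and each of `gcd(a, b, c)`, `gcd(d, a, b)`, `gcd(d, a, c)`, `gcd(d, b, c)` equals `1`. -/
structure Admissible (a b c d : ℤ) : Prop where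
  a_ne : a ≠ 0
  b_ne : b ≠ 0
  c_ne : c ≠ 0
  not_pos : ¬ (0 < a ∧ 0 < b ∧ 0 < c)
  not_neg : ¬ (a < 0 ∧ b < 0 ∧ c < 0)
  even : Even (a + b + c - d)
  gcd_abc : Int.gcd (Int.gcd a b) c = 1
  gcd_dab : Int.gcd (Int.gcd d a) b = 1
  gcd_dac : Int.gcd (Int.gcd d a) c = 1
  gcd_dbc : Int.gcd (Int.gcd d b) c = 1

/-- The equation `a p + b q + c r = d` has a solution in primes with `max(p, q, r) ≤ 3 |d| + m ^ μ`,
`m = max(3, |a|, |b|, |c|)`. -/
def SmallSolution (μ : ℝ) (a b c d : ℤ) : Prop :=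
  ∃ p q r : ℕ, p.Prime ∧ q.Prime ∧ r.Prime ∧ a * p + b * q + c * r = d ∧
    ((max p (max q r) : ℕ) : ℝ) ≤ 3 * |(d : ℝ)| + ((max 3 (max |a| (max |b| |c|)) : ℤ) : ℝ) ^ μ

/-- The radical: the product of the prime factors. -/
def rad (n : ℕ) : ℕ := ∏ p ∈ n.primeFactors, p

/-- The solutions `(p, q, r)` of `a p + b q + c r = d` in primes `p, q, r ≤ H`. -/
def solutions (a b c d : ℤ) (H : ℝ) : Set (ℕ × ℕ × ℕ) :=
  {t | t.1.Prime ∧ t.2.1.Prime ∧ t.2.2.Prime ∧ a * t.1 + b * t.2.1 + c * t.2.2 = d ∧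
    (t.1 : ℝ) ≤ H ∧ (t.2.1 : ℝ) ≤ H ∧ (t.2.2 : ℝ) ≤ H}

/-- exchange of `p` and `q` -/
def swap (t : ℕ × ℕ × ℕ) : ℕ × ℕ × ℕ := (t.2.1, t.1, t.2.2)

lemma swap_inj : Function.Injective swap := by
  rintro ⟨p, q, r⟩ ⟨p', q', r'⟩ h
  simp only [swap, Prod.mk.injEq] at h
  obtain ⟨h1, h2, h3⟩ := h
  rw [h1, h2, h3]

/-- the reduction to `p + q = C r + e` and `p - q = C r + e`, `C = |c|`, `e = ± d` -/
lemma reduce {a b c d : ℤ} {H M : ℝ} {C : ℕ} (hadm : Admissible a b c d) (ha : |a| = 1) (hb : |b| = 1)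
    (hCZ : (C : ℤ) = |c|)
    (hA : a = b → ∀ e : ℤ, (e = d ∨ e = -d) → (2 : ℤ) ∣ C + e → M ≤ ((Pool.Agent.H567.BK.solA C e H).ncard : ℝ))
    (hS : a ≠ b → ∀ e : ℤ, (e = d ∨ e = -d) → (2 : ℤ) ∣ C + e → M ≤ ((Pool.Agent.H567.BK.solS C e H).ncard : ℝ)) :
    M ≤ ((solutions a b c d H).ncard : ℝ) := by
  have heven := hadm.even
  rw [Int.even_iff] at heven
  have ha' : a = 1 ∨ a = -1 := by
    rcases abs_cases a with h | h <;> omega
  have hb' : b = 1 ∨ b = -1 := by
    rcases abs_cases b with h | h <;> omega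
  have hpar : (2 : ℤ) ∣ C + d := by
    rcases abs_cases c with h | h <;> rcases ha' with h3 | h3 <;> rcases hb' with h4 | h4 <;> omega
  have hpar' : (2 : ℤ) ∣ C + -d := by
    omega
  have hn1 := hadm.not_pos
  have hn2 := hadm.not_neg
  have hc0 := hadm.c_ne
  rcases ha' with h3 | h3 <;> rcases hb' with h4 | h4
  · -- `p + q + c r = d`, `c < 0`
    have hcneg : c < 0 := by
      by_contra hcon
      exact hn1 ⟨by omega, by omega, by omega⟩
    have hCc : (C : ℤ) = -c := by rw [hCZ]; exact abs_of_neg hcneg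
    have hset : solutions a b c d H = Pool.Agent.H567.BK.solA C d H := by
      ext t
      unfold solutions Pool.Agent.H567.BK.solA
      simp only [Set.mem_ofPred_eq]
      rw [h3, h4, hCc]
      have : (1 * (t.1 : ℤ) + 1 * t.2.1 + c * t.2.2 = d) ↔ ((t.1 : ℤ) + t.2.1 = -c * t.2.2 + d) :=
        ⟨fun h => by linear_combination h, fun h => by linear_combination h⟩
      rw [this]
    rw [hset]
    exact hA (by rw [h3, h4]) d (Or.inl rfl) hpar
  · -- `p - q + c r = d`
    have hne : a ≠ b := by rw [h3, h4]; norm_num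
    rcases lt_or_gt_of_ne hc0 with hcn | hcp
    · have hCc : (C : ℤ) = -c := by rw [hCZ]; exact abs_of_neg hcn
      have hset : solutions a b c d H = Pool.Agent.H567.BK.solS C d H := by
        ext t
        unfold solutions Pool.Agent.H567.BK.solS
        simp only [Set.mem_ofPred_eq]
        rw [h3, h4, hCc]
        have : (1 * (t.1 : ℤ) + -1 * t.2.1 + c * t.2.2 = d) ↔ ((t.1 : ℤ) - t.2.1 = -c * t.2.2 + d) :=
          ⟨fun h => by linear_combination h, fun h => by linear_combination h⟩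
        rw [this]
      rw [hset]
      exact hS hne d (Or.inl rfl) hpar
    · have hCc : (C : ℤ) = c := by rw [hCZ]; exact abs_of_pos hcp
      have hset : swap '' solutions a b c d H = Pool.Agent.H567.BK.solS C (-d) H := by
        ext ⟨p, q, r⟩
        unfold solutions Pool.Agent.H567.BK.solS swap
        simp only [Set.mem_ofPred_eq, Set.mem_image, Prod.mk.injEq, Prod.exists]
        rw [h3, h4, hCc]
        constructor
        · rintro ⟨q', p', r', ⟨k1, k2, k3, k4, k5, k6, k7⟩, rfl, rfl, rfl⟩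
          exact ⟨k2, k1, k3, by linear_combination -k4, k6, k5, k7⟩
        · rintro ⟨k1, k2, k3, k4, k5, k6, k7⟩
          exact ⟨q, p, r, ⟨k2, k1, k3, by linear_combination -k4, k6, k5, k7⟩, rfl, rfl, rfl⟩
      rw [← Set.ncard_image_of_injective _ swap_inj, hset]
      exact hS hne (-d) (Or.inr rfl) hpar'
  · -- `- p + q + c r = d`
    have hne : a ≠ b := by rw [h3, h4]; norm_num
    rcases lt_or_gt_of_ne hc0 with hcn | hcp
    · have hCc : (C : ℤ) = -c := by rw [hCZ]; exact abs_of_neg hcn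
      have hset : swap '' solutions a b c d H = Pool.Agent.H567.BK.solS C d H := by
        ext ⟨p, q, r⟩
        unfold solutions Pool.Agent.H567.BK.solS swap
        simp only [Set.mem_ofPred_eq, Set.mem_image, Prod.mk.injEq, Prod.exists]
        rw [h3, h4, hCc]
        constructor
        · rintro ⟨q', p', r', ⟨k1, k2, k3, k4, k5, k6, k7⟩, rfl, rfl, rfl⟩
          exact ⟨k2, k1, k3, by linear_combination k4, k6, k5, k7⟩
        · rintro ⟨k1, k2, k3, k4, k5, k6, k7⟩
          exact ⟨q, p, r, ⟨k2, k1, k3, by linear_combination k4, k6, k5, k7⟩, rfl, rfl, rfl⟩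
      rw [← Set.ncard_image_of_injective _ swap_inj, hset]
      exact hS hne d (Or.inl rfl) hpar
    · have hCc : (C : ℤ) = c := by rw [hCZ]; exact abs_of_pos hcp
      have hset : solutions a b c d H = Pool.Agent.H567.BK.solS C (-d) H := by
        ext t
        unfold solutions Pool.Agent.H567.BK.solS
        simp only [Set.mem_ofPred_eq]
        rw [h3, h4, hCc]
        have : (-1 * (t.1 : ℤ) + 1 * t.2.1 + c * t.2.2 = d) ↔ ((t.1 : ℤ) - t.2.1 = c * t.2.2 + -d) :=
          ⟨fun h => by linear_combination -h, fun h => by linear_combination -h⟩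
        rw [this]
      rw [hset]
      exact hS hne (-d) (Or.inr rfl) hpar'
  · -- `- p - q + c r = d`, `c > 0`
    have hcpos : 0 < c := by
      by_contra hcon
      exact hn2 ⟨by omega, by omega, by omega⟩
    have hCc : (C : ℤ) = c := by rw [hCZ]; exact abs_of_pos hcpos
    have hset : solutions a b c d H = Pool.Agent.H567.BK.solA C (-d) H := by
      ext t
      unfold solutions Pool.Agent.H567.BK.solA
      simp only [Set.mem_ofPred_eq]
      rw [h3, h4, hCc]
      have : (-1 * (t.1 : ℤ) + -1 * t.2.1 + c * t.2.2 = d) ↔ ((t.1 : ℤ) + t.2.1 = c * t.2.2 + -d) :=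
        ⟨fun h => by linear_combination -h, fun h => by linear_combination -h⟩
      rw [this]
    rw [hset]
    exact hA (by rw [h3, h4]) (-d) (Or.inr rfl) hpar'

lemma gcd_e {c d e : ℤ} {C : ℕ} (hCZ : (C : ℤ) = |c|) (he : e = d ∨ e = -d) : Int.gcd e C = Int.gcd c d := by
  have hgcd : Int.gcd d C = Int.gcd c d := by
    rw [hCZ, Int.gcd_comm]
    rcases abs_cases c with h | h
    · rw [h.1]
    · rw [h.1, Int.neg_gcd]
  rcases he with h | h
  · rw [h]
    exact hgcd
  · rw [h, Int.neg_gcd]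
    exact hgcd

/-- first part -/
theorem part1 (ε : ℝ) (hε : 0 < ε) (T : ℕ) : ∃ c₀ : ℕ, ∀ a b c d : ℤ, Admissible a b c d → |a| = 1 → |b| = 1 →
    (c₀ : ℤ) ≤ |c| →
    ((Int.gcd c d : ℝ) ≤ Real.log |(c : ℝ)| ^ T ∨ (a = b ∧ (rad (Int.gcd c d) : ℝ) ≤ Real.log |(c : ℝ)| ^ T) ∨
      (rad c.natAbs : ℝ) ≤ Real.log |(c : ℝ)| ^ T) →
    ∀ H : ℝ, H = 3 * |(d : ℝ)| + |(c : ℝ)| ^ (5 / 4 + ε) →
      (solutions a b c d H).Finite ∧
      H ^ 2 / (100000 * |(c : ℝ)| * Real.log H ^ 3) ≤ ((solutions a b c d H).ncard : ℝ) ∧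
      SmallSolution (5 / 4 + ε) a b c d := by
  obtain ⟨C₁, h1⟩ := Pool.Agent.H567.BK.add_count hε T
  obtain ⟨C₂, h2⟩ := Pool.Agent.H567.BK.sub_count hε T
  refine ⟨C₁ + C₂ + 3, fun a b c d hadm ha hb hc hg H hH => ?_⟩
  have hfin : (solutions a b c d H).Finite := Pool.Agent.H567.BK.fin_box H _ fun _ ht => ht.2.2.2.2
  have hm : max 3 (max |a| (max |b| |c|)) = |c| := by
    rw [ha, hb]
    omega
  have key : H ^ 2 / (100000 * |(c : ℝ)| * Real.log H ^ 3) ≤ ((solutions a b c d H).ncard : ℝ) := by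
    obtain ⟨C, hC⟩ : ∃ C, C = c.natAbs := ⟨_, rfl⟩
    have hCr : (C : ℝ) = |(c : ℝ)| := by rw [hC]; exact Nat.cast_natAbs c |>.trans (by push_cast; rfl)
    have hCZ : (C : ℤ) = |c| := by rw [hC]; exact Int.natCast_natAbs c
    have hCge : C₁ + C₂ + 3 ≤ C := by
      have : ((C₁ + C₂ + 3 : ℕ) : ℤ) ≤ C := by rw [hCZ]; exact hc
      exact_mod_cast this
    rw [← hCr] at hg hH ⊢
    rw [← hC] at hg
    have hg0 : Int.gcd c d ≠ 0 := by
      intro h0
      rw [Int.gcd_eq_zero_iff] at h0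
      exact hadm.c_ne h0.1
    have hgC : Int.gcd c d ∣ C := by
      rw [hC]
      exact Int.gcd_dvd_natAbs_left c d
    have hHe : ∀ e : ℤ, (e = d ∨ e = -d) → H = 3 * |(e : ℝ)| + (C : ℝ) ^ (5 / 4 + ε) := by
      intro e he
      rcases he with h | h
      · rw [h]
        exact hH
      · rw [h]
        push_cast
        rw [abs_neg]
        exact hH
    refine reduce hadm ha hb hCZ ?_ ?_
    · intro hab e he hpar
      refine h1 C (by omega) e ?_ hpar H (hHe e he)
      rw [gcd_e hCZ he]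
      rcases hg with h | h | h
      · refine le_trans ?_ h
        exact_mod_cast Nat.le_of_dvd (Nat.pos_of_ne_zero hg0) (Nat.prod_primeFactors_dvd _)
      · exact h.2
      · refine le_trans ?_ h
        exact_mod_cast Pool.Agent.H579.R.rad_dvd_le (by omega) hgC
    · intro hab e he hpar
      refine h2 C (by omega) e ?_ hpar H (hHe e he)
      rw [gcd_e hCZ he]
      rcases hg with h | h | h
      · exact Or.inl h
      · exact absurd h.1 hab
      · exact Or.inr h
  refine ⟨hfin, key, ?_⟩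
  have hc3 : (3 : ℝ) ≤ |(c : ℝ)| := by
    have h5 : (3 : ℤ) ≤ |c| := by omega
    have h6 : ((3 : ℤ) : ℝ) ≤ ((|c| : ℤ) : ℝ) := by exact_mod_cast h5
    push_cast at h6
    exact h6
  have hH1 : 1 < H := by
    have h5 : |(c : ℝ)| ^ (1 : ℝ) ≤ |(c : ℝ)| ^ (5 / 4 + ε) :=
      Real.rpow_le_rpow_of_exponent_le (by linarith) (by linarith)
    rw [Real.rpow_one] at h5
    have h6 := abs_nonneg (d : ℝ)
    rw [hH]
    linarith
  have hlog : 0 < Real.log H := Real.log_pos hH1
  have hpos : 0 < (solutions a b c d H).ncard := by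
    have : (0 : ℝ) < ((solutions a b c d H).ncard : ℝ) := by
      refine lt_of_lt_of_le ?_ key
      have : 0 < |(c : ℝ)| := by linarith
      positivity
    exact_mod_cast this
  obtain ⟨⟨p, q, r⟩, k1, k2, k3, k4, k5, k6, k7⟩ := Set.nonempty_of_ncard_ne_zero hpos.ne'
  refine ⟨p, q, r, k1, k2, k3, k4, ?_⟩
  rw [hm]
  push_cast
  rw [← hH]
  exact max_le k5 (max_le k6 k7)

/-- second part -/
theorem part2 (ρ : ℝ) (hρ : 0 < ρ) : ∃ k : ℕ, ∀ B : ℕ, ∃ N₀ : ℝ, ∀ N : ℝ, N₀ ≤ N →
    ∃ D : Finset ℕ, (D.card : ℝ) ≤ Real.log N ^ k ∧ (∀ e ∈ D, Real.log N ^ B < (rad e : ℝ)) ∧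
    ∀ a b c d : ℤ, Admissible a b c d → |a| = 1 → |b| = 1 → 2 ≤ |c| → |(c : ℝ)| ≤ N ^ (4 / 5 - ρ) →
      |(d : ℝ)| ≤ N / 5 → ((∀ e ∈ D, ¬ e ∣ c.natAbs) ∨ (a = b ∧ ∀ e ∈ D, ¬ e ∣ Int.gcd c d)) →
      (solutions a b c d N).Finite ∧
      N ^ 2 / (100000 * |(c : ℝ)| * Real.log N ^ 3) ≤ ((solutions a b c d N).ncard : ℝ) := by
  classical
  obtain ⟨k₁, h1⟩ := Pool.Agent.H567.BK.add_bulk hρ
  obtain ⟨k₂, h2⟩ := Pool.Agent.H567.BK.sub_bulk hρ
  refine ⟨max k₁ k₂ + 1, fun B => ?_⟩
  obtain ⟨N₁, h1⟩ := h1 B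
  obtain ⟨N₂, h2⟩ := h2 B
  obtain ⟨N₃, h3⟩ := Filter.eventually_atTop.1 (Real.tendsto_log_atTop.eventually_ge_atTop (2 : ℝ))
  refine ⟨max (max N₁ N₂) N₃, fun N hN => ?_⟩
  obtain ⟨D₁, a1, a2, a3⟩ := h1 N ((le_max_left _ _).trans ((le_max_left _ _).trans hN))
  obtain ⟨D₂, b1, b2, b3⟩ := h2 N ((le_max_right _ _).trans ((le_max_left _ _).trans hN))
  have hL := h3 N ((le_max_right _ _).trans hN)
  have hL1 : 1 ≤ Real.log N := by linarith
  refine ⟨D₁ ∪ D₂, ?_, ?_, ?_⟩
  · have e1 : ((D₁ ∪ D₂).card : ℝ) ≤ D₁.card + D₂.card := by exact_mod_cast Finset.card_union_le _ _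
    have e2 : Real.log N ^ k₁ ≤ Real.log N ^ max k₁ k₂ := pow_le_pow_right₀ hL1 (le_max_left _ _)
    have e3 : Real.log N ^ k₂ ≤ Real.log N ^ max k₁ k₂ := pow_le_pow_right₀ hL1 (le_max_right _ _)
    have e4 : 2 * Real.log N ^ max k₁ k₂ ≤ Real.log N ^ (max k₁ k₂ + 1) := by
      rw [pow_succ']
      exact mul_le_mul_of_nonneg_right hL (by positivity)
    linarith
  · intro e he
    rw [Finset.mem_union] at he
    rcases he with h | h
    · exact a2 e h
    · exact b2 e h
  · intro a b c d hadm ha hb hc hcN hd hD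
    refine ⟨Pool.Agent.H567.BK.fin_box N _ fun _ ht => ht.2.2.2.2, ?_⟩
    obtain ⟨C, hC⟩ : ∃ C, C = c.natAbs := ⟨_, rfl⟩
    have hCr : (C : ℝ) = |(c : ℝ)| := by rw [hC]; exact Nat.cast_natAbs c |>.trans (by push_cast; rfl)
    have hCZ : (C : ℤ) = |c| := by rw [hC]; exact Int.natCast_natAbs c
    have hC2 : 2 ≤ C := by
      have : ((2 : ℕ) : ℤ) ≤ C := by rw [hCZ]; exact hc
      exact_mod_cast this
    rw [← hC] at hD
    rw [← hCr] at hcN ⊢
    have hgC : Int.gcd c d ∣ C := by
      rw [hC]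
      exact Int.gcd_dvd_natAbs_left c d
    have hde : ∀ e : ℤ, (e = d ∨ e = -d) → |(e : ℝ)| ≤ N / 5 := by
      intro e he
      rcases he with h | h
      · rw [h]
        exact hd
      · rw [h]
        push_cast
        rw [abs_neg]
        exact hd
    refine reduce hadm ha hb hCZ ?_ ?_
    · intro hab e he hpar
      refine a3 C hC2 hcN e (hde e he) ?_ hpar
      intro m hm hdv
      rw [gcd_e hCZ he] at hdv
      rcases hD with h | h
      · exact h m (Finset.mem_union_left _ hm) (hdv.trans hgC)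
      · exact h.2 m (Finset.mem_union_left _ hm) hdv
    · intro hab e he hpar
      refine b3 C hC2 hcN e (hde e he) ?_ hpar
      rcases hD with h | h
      · exact fun m hm => h m (Finset.mem_union_right _ hm)
      · exact absurd h.1 hab

/-- (1) For all `ε > 0` and `T` there is `c₀` such that all admissible equations `a p + b q + c r = d` with
`|a| = |b| = 1`, `|c| ≥ c₀`, and with `gcd(c, d) ≤ (log |c|) ^ T`, or with `a = b` and
`rad gcd(c, d) ≤ (log |c|) ^ T`, or with `rad c ≤ (log |c|) ^ T`, have, with `H = 3 |d| + |c| ^ (5 / 4 + ε)`, at least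
`H ^ 2 / (10 ^ 5 |c| (log H) ^ 3)` solutions in primes `p, q, r ≤ H`; in particular they have a solution with
`max(p, q, r) ≤ 3 |d| + m ^ (5 / 4 + ε)`.

(2) For every `ρ > 0` there is `k` such that for all `B` and all large `N` there is a set `D` of at most `(log N) ^ k`
integers with radicals larger than `(log N) ^ B`, such that all admissible equations `a p + b q + c r = d` with
`|a| = |b| = 1`, `2 ≤ |c| ≤ N ^ (4 / 5 - ρ)` and `|d| ≤ N / 5` have at least `N ^ 2 / (10 ^ 5 |c| (log N) ^ 3)` solutions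
in primes `p, q, r ≤ N`, if no member of `D` divides `c`, or if `a = b` and no member of `D` divides `gcd(c, d)`. -/
theorem result :
    (∀ (ε : ℝ), 0 < ε → ∀ T : ℕ, ∃ c₀ : ℕ, ∀ a b c d : ℤ, Admissible a b c d → |a| = 1 → |b| = 1 →
      (c₀ : ℤ) ≤ |c| →
      ((Int.gcd c d : ℝ) ≤ Real.log |(c : ℝ)| ^ T ∨ (a = b ∧ (rad (Int.gcd c d) : ℝ) ≤ Real.log |(c : ℝ)| ^ T) ∨
        (rad c.natAbs : ℝ) ≤ Real.log |(c : ℝ)| ^ T) →
      ∀ H : ℝ, H = 3 * |(d : ℝ)| + |(c : ℝ)| ^ (5 / 4 + ε) →
        (solutions a b c d H).Finite ∧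
        H ^ 2 / (100000 * |(c : ℝ)| * Real.log H ^ 3) ≤ ((solutions a b c d H).ncard : ℝ) ∧
        SmallSolution (5 / 4 + ε) a b c d) ∧
    (∀ (ρ : ℝ), 0 < ρ → ∃ k : ℕ, ∀ B : ℕ, ∃ N₀ : ℝ, ∀ N : ℝ, N₀ ≤ N →
      ∃ D : Finset ℕ, (D.card : ℝ) ≤ Real.log N ^ k ∧ (∀ e ∈ D, Real.log N ^ B < (rad e : ℝ)) ∧
      ∀ a b c d : ℤ, Admissible a b c d → |a| = 1 → |b| = 1 → 2 ≤ |c| → |(c : ℝ)| ≤ N ^ (4 / 5 - ρ) →
        |(d : ℝ)| ≤ N / 5 → ((∀ e ∈ D, ¬ e ∣ c.natAbs) ∨ (a = b ∧ ∀ e ∈ D, ¬ e ∣ Int.gcd c d)) →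
        (solutions a b c d N).Finite ∧
        N ^ 2 / (100000 * |(c : ℝ)| * Real.log N ^ 3) ≤ ((solutions a b c d N).ncard : ℝ)) :=
  ⟨part1, part2⟩

end Pool.Agent.Results.MP_3923f3_nt.OneLargeCoefficientFiveFourths
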