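import Pool.Agent.H579.B.Inp

/-!
# MP_3923f3_nt: Baker's constant, the exponent `3 + ε` for all equations with pairwise coprime coefficients

A quadruple `(a, b, c, d)` of integers is admissible (`Admissible`) if `a`, `b`, `c` are nonzero and
not all of the same sign, `a + b + c - d` is even, and each of `gcd(a, b, c)`, `gcd(d, a, b)`,
`gcd(d, a, c)`, `gcd(d, b, c)` is one. The constant of Baker is the infimum of the exponents `μ` for
which every admissible equation `a p + b q + c r = d` has a solution in primes with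

  `max(p, q, r) ≤ 3 |d| + m ^ μ`, `m = max(3, |a|, |b|, |c|)`   (`SmallSolution μ a b c d`).

It is known that it is at most `45`, and at most `4` on the generalized Riemann hypothesis.

**Theorem.** Let `ε > 0` and `T` be given. **All** admissible equations for which `a`, `b`, `c` are pairwise
coprime, `m` is sufficiently large and `gcd(d, a b c) ≤ (log m) ^ T` have a solution in primes with

  `max(p, q, r) ≤ 3 |d| + m ^ (3 + ε)`,

that is, with an exponent smaller than the one which is known on the generalized Riemann hypothesis. More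
precisely, for `θ > 3 / 2` and `Δ = max(|a b|, |b c|, |c a|)` sufficiently large, `gcd(d, a b c) ≤ (log Δ) ^ T`,
there is a solution with

  `max(|a| p, |b| q, |c| r) ≤ 3 |d| + min(|a|, |b|, |c|) Δ ^ θ`.

No set of coefficients is excluded besides the conditions on the greatest common divisors.

The proof. The unknown `p` is considered modulo `k b c` with small `k`, and so on; these moduli are allowed to be
as large as the power `2 / 3 - ε` of the lengths of the summations. The sums of the von Mangoldt function with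
the characters of one modulus of this size are estimated in square mean over the characters by means of a
combinatorial identity with three factors, with the exception of at most `(log m) ^ C` bad characters on the major
arcs. Three bad characters contribute the generalised Jacobi sum over the solutions of `a x + b y + c z ≡ d` modulo
`k a b c`, which is small if one of the conductors is large and `gcd(d, k a b c)` is small. So no information on
the zeros of the `L`-functions is needed besides the theorem of Siegel and Walfisz.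
-/

set_option autoImplicit false

namespace Pool.Agent.Results.MP_3923f3_nt.PairwiseCoprimeExponentThree

open Pool.Agent.Y883.T5 (Admissible)
open Pool.Agent.Y883.T6 (SmallSolution)

/-- **Prime solutions of `a p + b q + c r = d` with pairwise coprime coefficients.** -/
theorem result :
    (∀ θ : ℝ, 3 / 2 < θ → ∀ T : ℕ, ∃ Δ₀ : ℕ, ∀ a b c d : ℤ, Admissible a b c d →
      Int.gcd a b = 1 → Int.gcd b c = 1 → Int.gcd c a = 1 →
      ∀ Δ : ℕ, Δ = max (a * b).natAbs (max (b * c).natAbs (c * a).natAbs) → Δ₀ ≤ Δ →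
      (Int.gcd d (a * b * c) : ℝ) ≤ Real.log Δ ^ T →
      ∃ p q r : ℕ, p.Prime ∧ q.Prime ∧ r.Prime ∧ a * p + b * q + c * r = d ∧
        ((max (a.natAbs * p) (max (b.natAbs * q) (c.natAbs * r)) : ℕ) : ℝ) ≤
          3 * |(d : ℝ)| + (min a.natAbs (min b.natAbs c.natAbs) : ℕ) * (Δ : ℝ) ^ θ) ∧
    (∀ ε : ℝ, 0 < ε → ∀ T : ℕ, ∃ m₀ : ℕ, ∀ a b c d : ℤ, Admissible a b c d →
      Int.gcd a b = 1 → Int.gcd b c = 1 → Int.gcd c a = 1 → ∀ m : ℤ, m = max 3 (max |a| (max |b| |c|)) →
      (m₀ : ℤ) ≤ m → (Int.gcd d (a * b * c) : ℝ) ≤ Real.log m ^ T → SmallSolution (3 + ε) a b c d) := by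
  have hmain : ∀ θ : ℝ, 3 / 2 < θ → ∀ T : ℕ, ∃ Δ₀ : ℕ, ∀ a b c d : ℤ, Admissible a b c d →
      Int.gcd a b = 1 → Int.gcd b c = 1 → Int.gcd c a = 1 → ∀ Δ : ℕ,
      Δ = max (a * b).natAbs (max (b * c).natAbs (c * a).natAbs) → Δ₀ ≤ Δ →
      (Int.gcd d (a * b * c) : ℝ) ≤ Real.log Δ ^ T → Pool.Agent.Y883.T6.Sol6 θ Δ a b c d := by
    intro θ hθ T
    exact Pool.Agent.H579.Bk.mainK (lam := 2 / 3) (by norm_num) (by norm_num) Pool.Agent.H579.Bk.errK_all θ
      (by norm_num; linarith) T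
  refine ⟨hmain, fun ε hε T => ?_⟩
  obtain ⟨Δ₀, h0⟩ := hmain (3 / 2 + ε / 2) (by linarith) T
  refine ⟨Δ₀ + 4, fun a b c d hadm h1 h2 h3 m hm hm0 hg => ?_⟩
  obtain ⟨Δ, hΔ⟩ : ∃ Δ : ℕ, Δ = max (a * b).natAbs (max (b * c).natAbs (c * a).natAbs) := ⟨_, rfl⟩
  have e1 : (a * b).natAbs = a.natAbs * b.natAbs := Int.natAbs_mul _ _
  have e2 : (b * c).natAbs = b.natAbs * c.natAbs := Int.natAbs_mul _ _
  have e3 : (c * a).natAbs = c.natAbs * a.natAbs := Int.natAbs_mul _ _
  obtain ⟨u, hu⟩ : ∃ u : ℕ, u = a.natAbs := ⟨_, rfl⟩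
  obtain ⟨v, hv⟩ : ∃ v : ℕ, v = b.natAbs := ⟨_, rfl⟩
  obtain ⟨w, hw⟩ : ∃ w : ℕ, w = c.natAbs := ⟨_, rfl⟩
  have hu1 : 1 ≤ u := by rw [hu]; exact Int.natAbs_pos.2 hadm.a_ne
  have hv1 : 1 ≤ v := by rw [hv]; exact Int.natAbs_pos.2 hadm.b_ne
  have hw1 : 1 ≤ w := by rw [hw]; exact Int.natAbs_pos.2 hadm.c_ne
  have hau : |a| = (u : ℤ) := by rw [hu]; exact Int.abs_eq_natAbs a
  have hbv : |b| = (v : ℤ) := by rw [hv]; exact Int.abs_eq_natAbs b
  have hcw : |c| = (w : ℤ) := by rw [hw]; exact Int.abs_eq_natAbs c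
  have hΔ' : Δ = max (u * v) (max (v * w) (w * u)) := by rw [hΔ, e1, e2, e3, hu, hv, hw]
  have huv : u ≤ u * v := Nat.le_mul_of_pos_right _ hv1
  have hvw : v ≤ v * w := Nat.le_mul_of_pos_right _ hw1
  have hwu : w ≤ w * u := Nat.le_mul_of_pos_right _ hu1
  obtain ⟨M, hM⟩ : ∃ M : ℕ, M = max 3 (max u (max v w)) := ⟨_, rfl⟩
  have hmM : m = (M : ℤ) := by
    rw [hm, hau, hbv, hcw, hM]
    push_cast
    rfl
  have hM4 : Δ₀ + 4 ≤ M := by
    rw [hmM] at hm0
    exact_mod_cast hm0
  have hMΔ : M ≤ Δ := by omega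
  have hM0 : (0 : ℝ) < M := by exact_mod_cast (by omega : 0 < M)
  have hM1 : (1 : ℝ) ≤ M := by exact_mod_cast (by omega : 1 ≤ M)
  have hmr : (m : ℝ) = M := by rw [hmM]; norm_num
  have hsol := h0 a b c d hadm h1 h2 h3 Δ hΔ (by omega) (by
    refine hg.trans ?_
    rw [hmr]
    apply pow_le_pow_left₀ (Real.log_nonneg hM1)
    exact Real.log_le_log hM0 (by exact_mod_cast hMΔ))
  have hsol' : Pool.Agent.Y883.T6.Sol6 (3 / 2 + ε / 2) Δ a b c d := hsol
  apply hsol'.small hadm.a_ne hadm.b_ne hadm.c_ne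
  rw [← hm, hmr]
  have hΔM : Δ ≤ M * M := by
    have a1 : u ≤ M := by omega
    have a2 : v ≤ M := by omega
    have a3 : w ≤ M := by omega
    rw [hΔ']
    exact max_le (Nat.mul_le_mul a1 a2) (max_le (Nat.mul_le_mul a2 a3) (Nat.mul_le_mul a3 a1))
  have hΔMr : (Δ : ℝ) ≤ (M : ℝ) ^ (2 : ℝ) := by
    have : (Δ : ℝ) ≤ M * M := by exact_mod_cast hΔM
    rw [Real.rpow_two, sq]
    exact this
  calc (Δ : ℝ) ^ (3 / 2 + ε / 2) ≤ ((M : ℝ) ^ (2 : ℝ)) ^ (3 / 2 + ε / 2) :=
        Real.rpow_le_rpow (Nat.cast_nonneg _) hΔMr (by linarith)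
    _ = (M : ℝ) ^ (3 + ε) := by
        rw [← Real.rpow_mul hM0.le]
        congr 1
        ring

end Pool.Agent.Results.MP_3923f3_nt.PairwiseCoprimeExponentThree
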